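import Pool.Agent.Helper86.FS.StartGoals2
import Pool.Agent.Helper67.AK.UR
import Pool.Agent.Helper60.AK.LZ

/-!
# FS-START-SUP: return probabilities from the support bound
-/

namespace Pool.Agent.Helper16.FS

open Equiv Pool.Agent.Helper3.AK Pool.Agent.Helper67.AK Pool.Agent.Helper86.FS

variable {n r K : ℕ}

/-- `ip u v ≤ (ip u u + ip v v) / 2`. -/
lemma ip_le_half (u v : Fn n r) : ip u v ≤ (ip u u + ip v v) / 2 := by
  have h := ip_self_nonneg (u - v)
  rw [ip_sub_left, ip_sub_right, ip_sub_right, ip_comm v u] at h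
  linarith

lemma cast_pos' (hK : 0 < K) : (0 : ℝ) < K := by exact_mod_cast hK

/-- The walk is an average of isometries. -/
lemma ip_Wk_le_half (z : Fin K → Alt n) (hK : 0 < K) (u φ : Fn n r) :
    ip u (Wk z φ) ≤ (ip u u + ip φ φ) / 2 := by
  have hK' := cast_pos' hK
  rw [Wk_apply, ip_smul_right, ip_sum_right]
  have h1 : ∑ i : Fin K, ip u (Act (z i : Perm (Fin n)) φ + Act ((z i : Perm (Fin n))⁻¹) φ) ≤
      ∑ _i : Fin K, (ip u u + ip φ φ) := by
    refine Finset.sum_le_sum fun i _ => ?_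
    rw [ip_add_right]
    have h2 := ip_le_half u (Act (z i : Perm (Fin n)) φ)
    have h3 := ip_le_half u (Act ((z i : Perm (Fin n))⁻¹) φ)
    rw [ip_Act_Act] at h2 h3
    linarith
  rw [Finset.sum_const, Finset.card_univ, Fintype.card_fin, nsmul_eq_mul] at h1
  have h2 := mul_le_mul_of_nonneg_left h1 (inv_nonneg.mpr (by positivity : (0 : ℝ) ≤ 2 * K))
  refine h2.trans (le_of_eq ?_)
  field_simp

/-- `|W φ| ≤ |φ|`. -/
lemma ip_Wk_Wk (z : Fin K → Alt n) (hK : 0 < K) (φ : Fn n r) :
    ip (Wk z φ) (Wk z φ) ≤ ip φ φ := by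
  have := ip_Wk_le_half z hK (Wk z φ) φ
  linarith

/-- `|L φ|² ≤ (|φ|² + ip φ (W φ)) / 2`. -/
lemma ip_Lz_Lz (z : Fin K → Alt n) (hK : 0 < K) (φ : Fn n r) :
    ip (Lz z φ) (Lz z φ) ≤ (ip φ φ + ip φ (Wk z φ)) / 2 := by
  have h := ip_Wk_Wk z hK φ
  rw [Pool.Agent.Helper67.AK.Lz_apply, ip_smul_left, ip_smul_right, ip_add_left, ip_add_right,
    ip_add_right, ip_comm (Wk z φ) φ]
  linarith

lemma ip_Lz_Lz_le_self (z : Fin K → Alt n) (hK : 0 < K) (φ : Fn n r) :
    ip (Lz z φ) (Lz z φ) ≤ ip φ φ := by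
  have h1 := ip_Lz_Lz z hK φ
  have h2 := ip_Wk_le_half z hK φ φ
  linarith

lemma sum_Lz_eq (z : Fin K → Alt n) (hK : 0 < K) (φ : Fn n r) :
    ∑ a, Lz z φ a = ∑ a, φ a := by
  have hK' := cast_pos' hK
  have h1 : ∑ a, Wk z φ a = ∑ a, φ a := by
    rw [Wk_apply]
    simp only [Pi.smul_apply, Finset.sum_apply, Pi.add_apply, smul_eq_mul]
    rw [← Finset.mul_sum, Finset.sum_comm]
    have : ∀ i, ∑ a, (Act (z i : Perm (Fin n)) φ a + Act ((z i : Perm (Fin n))⁻¹) φ a) =
        2 * ∑ a, φ a := by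
      intro i
      rw [Finset.sum_add_distrib, sum_Act, sum_Act]
      ring
    rw [Finset.sum_congr rfl fun i _ => this i, Finset.sum_const, Finset.card_univ,
      Fintype.card_fin, nsmul_eq_mul]
    field_simp
  rw [Pool.Agent.Helper67.AK.Lz_apply]
  simp only [Pi.smul_apply, Pi.add_apply, smul_eq_mul]
  rw [← Finset.mul_sum, Finset.sum_add_distrib, h1]
  ring

lemma Lz_nonneg (z : Fin K → Alt n) (φ : Fn n r) (h : ∀ a, 0 ≤ φ a) (a : Fin r ↪ Fin n) :
    0 ≤ Lz z φ a := by
  rw [Pool.Agent.Helper67.AK.Lz_apply, Wk_apply]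
  simp only [Pi.smul_apply, Pi.add_apply, smul_eq_mul, Finset.sum_apply]
  have h1 : 0 ≤ ∑ i : Fin K, (Act (z i : Perm (Fin n)) φ a +
      Act ((z i : Perm (Fin n))⁻¹) φ a) :=
    Finset.sum_nonneg fun i _ => add_nonneg (h _) (h _)
  have h2 : 0 ≤ (2 * (K : ℝ))⁻¹ := by positivity
  have h3 := h a
  positivity

/-- One generator is nearly invariant if the walk is. -/
lemma ip_Act_ge_of_Wk (z : Fin K → Alt n) (hK : 0 < K) (φ : Fn n r) (h1 : ip φ φ = 1) (e : ℝ)
    (h : 1 - e ≤ ip φ (Wk z φ)) (i : Fin K) : 1 - K * e ≤ ip φ (Act (z i : Perm (Fin n)) φ) := by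
  have hK' := cast_pos' hK
  rw [Wk_apply, ip_smul_right, ip_sum_right] at h
  have h2 : ∀ j : Fin K, ip φ (Act (z j : Perm (Fin n)) φ + Act ((z j : Perm (Fin n))⁻¹) φ) =
      2 * ip φ (Act (z j : Perm (Fin n)) φ) := by
    intro j
    rw [ip_add_right, ip_Act_right (z j : Perm (Fin n))⁻¹, inv_inv,
      ip_comm (Act (z j : Perm (Fin n)) φ) φ]
    ring
  rw [Finset.sum_congr rfl fun j _ => h2 j, ← Finset.mul_sum] at h
  have h3 : K * (1 - e) ≤ ∑ j, ip φ (Act (z j : Perm (Fin n)) φ) := by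
    have h4 := mul_le_mul_of_nonneg_left h hK'.le
    refine h4.trans (le_of_eq ?_)
    field_simp
  have h5 : ∑ j, ip φ (Act (z j : Perm (Fin n)) φ) ≤
      ip φ (Act (z i : Perm (Fin n)) φ) + ((K : ℝ) - 1) := by
    rw [← Finset.add_sum_erase _ _ (Finset.mem_univ i)]
    apply add_le_add le_rfl
    have h6 : ∑ j ∈ Finset.univ.erase i, ip φ (Act (z j : Perm (Fin n)) φ) ≤
        ∑ _j ∈ (Finset.univ : Finset (Fin K)).erase i, (1 : ℝ) := by
      refine Finset.sum_le_sum fun j _ => ?_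
      have := ip_le_half φ (Act (z j : Perm (Fin n)) φ)
      rw [ip_Act_Act, h1] at this
      linarith
    rw [Finset.sum_const, Finset.card_erase_of_mem (Finset.mem_univ i), Finset.card_univ,
      Fintype.card_fin, nsmul_eq_mul, mul_one, Nat.cast_sub (by omega), Nat.cast_one] at h6
    exact h6
  linarith

/-- The return probability is the norm of a power. -/
lemma pT_eq (x : Fin K → Alt n) (hK : 0 < K) (a : Fin r ↪ Fin n) (t : ℕ) (δ : Fn n r)
    (hδ : ∀ c, δ c = if c = a then 1 else 0) :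
    pT (lazyLaw x (2 * t)) a a = ip ((Lz x ^ t) δ) ((Lz x ^ t) δ) := by
  classical
  have hsymm : ∀ (t : ℕ) (φ ψ : Fn n r), ip φ ((Lz x ^ t) ψ) = ip ((Lz x ^ t) φ) ψ := by
    intro t
    induction t with
    | zero => intro φ ψ; rfl
    | succ t ih =>
      intro φ ψ
      have e1 : (Lz x ^ (t + 1)) ψ = Lz x ((Lz x ^ t) ψ) := by
        rw [pow_succ', Module.End.mul_apply]
      have e2 : (Lz x ^ (t + 1)) φ = (Lz x ^ t) (Lz x φ) := by
        rw [pow_succ, Module.End.mul_apply]
      rw [e1, e2, ip_Lz, ih]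
  have h1 : pT (lazyLaw x (2 * t)) a a =
      (Avg (lazyLaw x (2 * t)) : Fn n r →ₗ[ℝ] Fn n r) δ a := by
    unfold pT
    rw [Avg_apply, Finset.sum_filter]
    refine Finset.sum_congr rfl fun g _ => ?_
    have : (a.trans g.toEmbedding = a) ↔ (∀ i, g (a i) = a i) := by
      constructor
      · intro h i
        conv_rhs => rw [← h]
        rfl
      · intro h
        ext i
        exact congrArg Fin.val (h i)
    rw [hδ]
    simp only [this]
    split_ifs <;> simp
  have h2 := (Pool.Agent.Helper60.AK.LZ.lz n K r (2 * t) x hK).1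
  rw [h1, h2, ← hsymm, ← Module.End.mul_apply, ← pow_add, ← two_mul]
  unfold ip
  rw [Finset.sum_eq_single a]
  · rw [hδ, if_pos rfl, one_mul]
  · intro b _ hb
    rw [hδ, if_neg hb, zero_mul]
  · intro h
    exact absurd (Finset.mem_univ _) h

/-- SUP. -/
theorem sup (hT : TRUStmt) : SUPStmt := by
  classical
  intro n K b x g H hK hg hH hsupp a t ht
  by_contra hcon
  push Not at hcon
  have hK' := cast_pos' hK
  set δ : Fn n b := fun c => if c = a then 1 else 0 with hδ
  rw [pT_eq x hK a t δ (fun c => rfl)] at hcon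
  set p : ℕ → ℝ := fun j => ip ((Lz x ^ j) δ) ((Lz x ^ j) δ) with hp
  have hpt : Real.exp (-(H / 2)) < p t := hcon
  have hp0 : p 0 = 1 := by
    rw [hp]
    simp only [pow_zero, Module.End.one_apply]
    unfold ip
    rw [hδ]
    simp
  have hmono : ∀ j, p (j + 1) ≤ p j := by
    intro j
    rw [hp]
    simp only
    rw [pow_succ' (Lz x), Module.End.mul_apply]
    exact ip_Lz_Lz_le_self x hK _
  have hanti : Antitone p := antitone_nat_of_succ_le hmono
  have ht0 : (0 : ℝ) < t := lt_of_lt_of_le (by positivity) ht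
  have ht1 : 0 < t := by exact_mod_cast ht0
  set e : ℝ := H / (2 * t) with he
  have hex : ∃ s < t, (1 - e) * p s ≤ p (s + 1) := by
    by_contra hno
    push Not at hno
    by_cases he1 : 1 - e < 0
    · have h1 := hno 0 ht1
      rw [hp0] at h1
      have h2 : 0 ≤ p (0 + 1) := ip_self_nonneg _
      linarith
    · push Not at he1
      have h1 : ∀ s ≤ t, p s ≤ (1 - e) ^ s := by
        intro s
        induction s with
        | zero => intro _; rw [hp0, pow_zero]
        | succ s ih =>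
          intro hs
          refine (hno s (by omega)).le.trans ?_
          rw [pow_succ']
          exact mul_le_mul_of_nonneg_left (ih (by omega)) he1
      have h2 := h1 t le_rfl
      have h3 : (1 - e) ^ t ≤ Real.exp (-e) ^ t := by
        apply pow_le_pow_left₀ he1
        have := Real.add_one_le_exp (-e)
        linarith
      rw [← Real.exp_nat_mul] at h3
      have h4 : (t : ℝ) * -e = -(H / 2) := by
        rw [he]
        field_simp
      rw [h4] at h3
      linarith
  obtain ⟨s, hs, hs2⟩ := hex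
  have hps : Real.exp (-(H / 2)) < p s := lt_of_lt_of_le hpt (hanti hs.le)
  have hps0 : 0 < p s := lt_trans (Real.exp_pos _) hps
  set φ : Fn n b := (Lz x ^ s) δ with hφ
  have hφp : ip φ φ = p s := rfl
  set c : ℝ := (Real.sqrt (p s))⁻¹ with hc
  have hsq : Real.sqrt (p s) * Real.sqrt (p s) = p s := Real.mul_self_sqrt hps0.le
  have hsq0 : 0 < Real.sqrt (p s) := Real.sqrt_pos.2 hps0
  have hc0 : 0 < c := inv_pos.2 hsq0
  have hcc : c * c * p s = 1 := by
    rw [hc]
    nth_rewrite 3 [← hsq]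
    field_simp
  set f : Fn n b := c • φ with hf
  have hφ0 : ∀ d, 0 ≤ φ d := by
    rw [hφ]
    clear_value φ
    have : ∀ (j : ℕ) (d : Fin b ↪ Fin n), 0 ≤ ((Lz x ^ j) δ) d := by
      intro j
      induction j with
      | zero =>
        intro d
        simp only [pow_zero, Module.End.one_apply, hδ]
        split_ifs <;> norm_num
      | succ j ih =>
        intro d
        rw [pow_succ' (Lz x), Module.End.mul_apply]
        exact Lz_nonneg x _ ih d
    exact this s
  have hf0 : ∀ d, 0 ≤ f d := fun d => mul_nonneg hc0.le (hφ0 d)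
  have hf1 : ip f f = 1 := by
    rw [hf, ip_smul_left, ip_smul_right, hφp, ← mul_assoc]
    exact hcc
  have hLf : 1 - e ≤ ip (Lz x f) (Lz x f) := by
    rw [hf, map_smul, ip_smul_left, ip_smul_right]
    have h1 : ip (Lz x φ) (Lz x φ) = p (s + 1) := by
      rw [hp, hφ]
      simp only
      rw [pow_succ' (Lz x), Module.End.mul_apply]
    rw [h1, ← mul_assoc]
    calc 1 - e = (c * c * p s) * (1 - e) := by rw [hcc, one_mul]
      _ = c * c * ((1 - e) * p s) := by ring
      _ ≤ c * c * p (s + 1) := mul_le_mul_of_nonneg_left hs2 (by positivity)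
  have hWf : 1 - 2 * e ≤ ip f (Wk x f) := by
    have h1 := ip_Lz_Lz x hK f
    rw [hf1] at h1
    linarith
  have hsum : ∑ d, f d = c := by
    rw [hf]
    simp only [Pi.smul_apply, smul_eq_mul]
    rw [← Finset.mul_sum]
    have : ∀ j : ℕ, ∑ d, ((Lz x ^ j) δ) d = 1 := by
      intro j
      induction j with
      | zero =>
        simp only [pow_zero, Module.End.one_apply, hδ]
        simp
      | succ j ih =>
        rw [pow_succ' (Lz x), Module.End.mul_apply, sum_Lz_eq x hK, ih]
    rw [hφ, this s, mul_one]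
  obtain ⟨h, hh0, hh1, hhs, hhg⟩ := hT n b f hf0 hf1
  have hK2 : (K : ℝ) * (2 * e) ≤ g / 2 := by
    rw [he]
    have h1 : 2 * K * H ≤ t * g := by
      rw [div_le_iff₀ hg] at ht
      exact ht
    rw [show (K : ℝ) * (2 * (H / (2 * t))) = K * H / t by field_simp]
    rw [div_le_iff₀ ht0]
    linarith
  have hinv : ∀ i, 1 - g ≤ ip h (Act (x i : Perm (Fin n)) h) := by
    intro i
    have h1 := ip_Act_ge_of_Wk x hK f hf1 (2 * e) hWf i
    have h2 := hhg (x i : Perm (Fin n)) (g / 2) (by linarith)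
    linarith
  have h1 := hsupp h hh1 hinv
  rw [hsum] at hhs
  have h2 : c ^ 2 < Real.exp (H / 2) := by
    have h3 : c ^ 2 = 1 / p s := by
      field_simp
      rw [pow_two]
      exact hcc
    rw [h3, div_lt_iff₀ hps0]
    have h4 : Real.exp (H / 2) * Real.exp (-(H / 2)) = 1 := by
      rw [← Real.exp_add]
      simp
    calc (1 : ℝ) = Real.exp (H / 2) * Real.exp (-(H / 2)) := h4.symm
      _ < Real.exp (H / 2) * p s := mul_lt_mul_of_pos_left hps (Real.exp_pos _)
  have h5 : (4 : ℝ) ≤ Real.exp (H / 2) := by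
    have h6 := Real.add_one_le_exp (H / 4)
    have h7 : Real.exp (H / 2) = Real.exp (H / 4) * Real.exp (H / 4) := by
      rw [← Real.exp_add]
      congr 1
      ring
    rw [h7]
    nlinarith
  have h8 : Real.exp H = Real.exp (H / 2) * Real.exp (H / 2) := by
    rw [← Real.exp_add]
    congr 1
    ring
  have h9 : 4 * c ^ 2 < Real.exp H := by
    rw [h8]
    have h10 : 4 * c ^ 2 < 4 * Real.exp (H / 2) := by linarith
    refine lt_of_lt_of_le h10 ?_
    exact mul_le_mul_of_nonneg_right h5 (Real.exp_pos _).le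
  linarith

end Pool.Agent.Helper16.FS
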