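import Pool.Agent.Helper91.FS.Goals3
import Mathlib.GroupTheory.GroupAction.Primitive
import Mathlib.GroupTheory.Coset.Card

/-!
# Project FS, packet SOLP (MP_0130f7_co): solvable transitive groups of prime degree (Galois)
-/

set_option autoImplicit false

namespace Pool.Agent.Helper16.FS

open Pool.Agent.Helper91.FS
open Pool.Agent.Helper47.SR (Grp)

/-- A solvable transitive group of prime degree has an abelian normal subgroup which is not
trivial. -/
theorem exA {G : Type} [Group G] (hs : Group.IsSolvable G) (hn : ∃ g : G, g ≠ 1) :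
    ∃ A : Subgroup G, A.Normal ∧ A ≠ ⊥ ∧ ∀ x ∈ A, ∀ y ∈ A, x * y = y * x := by
  classical
  have hex : ∃ n, derivedSeries G n = ⊥ := hs.solvable
  have h0 : derivedSeries G (Nat.find hex) = ⊥ := Nat.find_spec hex
  have hpos : Nat.find hex ≠ 0 := by
    intro h
    rw [h, derivedSeries_zero] at h0
    obtain ⟨g, hg⟩ := hn
    apply hg
    have : g ∈ (⊤ : Subgroup G) := Subgroup.mem_top g
    rw [h0] at this
    exact Subgroup.mem_bot.1 this
  obtain ⟨m, hm⟩ := Nat.exists_eq_succ_of_ne_zero hpos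
  refine ⟨derivedSeries G m, derivedSeries_normal G m,
    Nat.find_min hex (by omega), ?_⟩
  intro x hx y hy
  have h1 := Subgroup.commutator_mem_commutator hx hy
  rw [← derivedSeries_succ, ← Nat.succ_eq_add_one, ← hm, h0, Subgroup.mem_bot] at h1
  exact commutatorElement_eq_one_iff_mul_comm.1 h1

theorem goal_SOLP : Goal_SOLP := by
  intro p _ G htr hsol
  have hp := (Fact.out : p.Prime)
  haveI : NeZero p := ⟨hp.ne_zero⟩
  have h01 : ∃ x y : Fin p, x ≠ y :=
    ⟨⟨0, hp.pos⟩, ⟨1, hp.one_lt⟩, fun h => by simpa using congrArg Fin.val h⟩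
  obtain ⟨x₀, x₁, h01⟩ := h01
  have hne : ∃ g : G, g ≠ 1 := by
    obtain ⟨γ, hγ, h⟩ := htr x₀ x₁
    refine ⟨⟨γ, hγ⟩, fun h1 => h01 ?_⟩
    have h2 : γ = 1 := congrArg Subtype.val h1
    rw [h2] at h
    exact h
  obtain ⟨A, hAn, hAne, hAc⟩ := exA hsol hne
  haveI : MulAction.IsPretransitive G (Fin p) :=
    ⟨fun x y => by obtain ⟨γ, hγ, h⟩ := htr x y; exact ⟨⟨γ, hγ⟩, h⟩⟩
  haveI : MulAction.IsPreprimitive G (Fin p) :=
    MulAction.IsPreprimitive.of_prime_card (by rw [Nat.card_eq_fintype_card, Fintype.card_fin]; exact hp)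
  have hAtr : MulAction.IsPretransitive A (Fin p) := by
    apply MulAction.IsQuasiPreprimitive.isPretransitive_of_normal
    intro h
    apply hAne
    rw [Subgroup.eq_bot_iff_forall]
    intro g hg
    apply Subtype.ext
    apply Equiv.ext
    intro x
    have hx : x ∈ MulAction.fixedPoints A (Fin p) := by rw [h]; trivial
    exact hx ⟨g, hg⟩
  -- in terms of permutations
  have tr : ∀ x y : Fin p, ∃ g : G, g ∈ A ∧ (g : Equiv.Perm (Fin p)) x = y := by
    intro x y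
    obtain ⟨g, hg⟩ := hAtr.exists_smul_eq x y
    exact ⟨g.1, g.2, hg⟩
  have free : ∀ g : G, g ∈ A → ∀ x : Fin p, (g : Equiv.Perm (Fin p)) x = x → g = 1 := by
    intro g hg x hx
    apply Subtype.ext
    apply Equiv.ext
    intro y
    obtain ⟨b, hb, hby⟩ := tr x y
    have h1 := congrArg Subtype.val (hAc g hg b hb)
    have h2 : (g : Equiv.Perm (Fin p)) ((b : Equiv.Perm (Fin p)) x) =
        (b : Equiv.Perm (Fin p)) ((g : Equiv.Perm (Fin p)) x) := by
      have h3 := congrArg (fun π : Equiv.Perm (Fin p) => π x) h1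
      exact h3
    rw [hx, hby] at h2
    exact h2
  have hcard : Nat.card A = p := by
    have hbij : Function.Bijective (fun g : A => ((g : G) : Equiv.Perm (Fin p)) x₀) := by
      refine ⟨?_, ?_⟩
      · intro g g' h
        have h1 : (((g' : G)⁻¹ * (g : G) : G) : Equiv.Perm (Fin p)) x₀ = x₀ := by
          change ((g' : G) : Equiv.Perm (Fin p))⁻¹ (((g : G) : Equiv.Perm (Fin p)) x₀) = x₀
          rw [Equiv.Perm.inv_eq_iff_eq]
          exact h
        have h2 := free _ (A.mul_mem (A.inv_mem g'.2) g.2) x₀ h1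
        apply Subtype.ext
        exact (inv_mul_eq_one.1 h2).symm
      · intro y
        obtain ⟨g, hg, h⟩ := tr x₀ y
        exact ⟨⟨g, hg⟩, h⟩
    rw [Nat.card_congr (Equiv.ofBijective _ hbij), Nat.card_eq_fintype_card, Fintype.card_fin]
  obtain ⟨σ, hσ, hσ1⟩ : ∃ σ ∈ A, σ ≠ 1 := by
    by_contra h
    push Not at h
    exact hAne ((Subgroup.eq_bot_iff_forall _).2 h)
  have hord : orderOf σ = p := by
    have h1 : orderOf (⟨σ, hσ⟩ : A) ∣ p :=
      (orderOf_dvd_natCard (⟨σ, hσ⟩ : A)).trans (dvd_of_eq hcard)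
    have h2 : orderOf (⟨σ, hσ⟩ : A) = orderOf σ := Subgroup.orderOf_mk σ hσ
    rw [h2] at h1
    rcases (Nat.dvd_prime hp).1 h1 with h | h
    · exact absurd (orderOf_eq_one_iff.1 h) hσ1
    · exact h
  -- the numbering
  have hval : ∀ n : ℕ, σ ^ (n : ZMod p).val = σ ^ n := by
    intro n
    have h1 : n % p = n % orderOf σ := congrArg (fun t => n % t) hord.symm
    rw [ZMod.val_natCast, h1]
    exact pow_mod_orderOf σ n
  have einj : Function.Injective
      (fun i : ZMod p => ((σ ^ i.val : G) : Equiv.Perm (Fin p)) x₀) := by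
    have key : ∀ i j : ZMod p, i.val ≤ j.val → ((σ ^ i.val : G) : Equiv.Perm (Fin p)) x₀ =
        ((σ ^ j.val : G) : Equiv.Perm (Fin p)) x₀ → i = j := by
      intro i j hij h
      obtain ⟨d, hd⟩ := Nat.exists_eq_add_of_le hij
      have h1 : ((σ ^ j.val : G) : Equiv.Perm (Fin p)) x₀ =
          ((σ ^ i.val : G) : Equiv.Perm (Fin p)) (((σ ^ d : G) : Equiv.Perm (Fin p)) x₀) := by
        rw [hd, pow_add]
        rfl
      rw [h1] at h
      have h2 := (Equiv.injective _ h).symm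
      have h3 := free _ (A.pow_mem hσ d) x₀ h2
      have h4 : p ∣ d := (dvd_of_eq hord.symm).trans (orderOf_dvd_of_pow_eq_one h3)
      have h5 : d < p := by
        have := ZMod.val_lt j
        omega
      have h6 : d = 0 := Nat.eq_zero_of_dvd_of_lt h4 h5
      apply ZMod.val_injective p
      omega
    intro i j h
    rcases le_total i.val j.val with h1 | h1
    · exact key i j h1 h
    · exact (key j i h1 h.symm).symm
  have ebij : Function.Bijective
      (fun i : ZMod p => ((σ ^ i.val : G) : Equiv.Perm (Fin p)) x₀) := by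
    rw [Fintype.bijective_iff_injective_and_card]
    exact ⟨einj, by rw [ZMod.card, Fintype.card_fin]⟩
  have surj : ∀ y : Fin p, ∃ n : ℕ, ((σ ^ n : G) : Equiv.Perm (Fin p)) x₀ = y := by
    intro y
    obtain ⟨i, hi⟩ := ebij.2 y
    exact ⟨i.val, hi⟩
  refine ⟨Equiv.ofBijective _ ebij, ?_⟩
  intro γ hγ
  -- γ σ γ⁻¹ = σ ^ a
  obtain ⟨b, hb⟩ := surj (γ x₀)
  have hcon : (⟨γ, hγ⟩ : G) * σ * (⟨γ, hγ⟩ : G)⁻¹ ∈ A := hAn.conj_mem σ hσ _
  obtain ⟨a, ha⟩ := surj ((((⟨γ, hγ⟩ : G) * σ * (⟨γ, hγ⟩ : G)⁻¹ : G) : Equiv.Perm (Fin p)) x₀)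
  have hconj : (⟨γ, hγ⟩ : G) * σ * (⟨γ, hγ⟩ : G)⁻¹ = σ ^ a := by
    have h1 : (((σ ^ a)⁻¹ * ((⟨γ, hγ⟩ : G) * σ * (⟨γ, hγ⟩ : G)⁻¹) : G) :
        Equiv.Perm (Fin p)) x₀ = x₀ := by
      change ((σ ^ a : G) : Equiv.Perm (Fin p))⁻¹
        ((((⟨γ, hγ⟩ : G) * σ * (⟨γ, hγ⟩ : G)⁻¹ : G) : Equiv.Perm (Fin p)) x₀) = x₀
      rw [Equiv.Perm.inv_eq_iff_eq]
      exact ha.symm
    have h2 := free _ (A.mul_mem (A.inv_mem (A.pow_mem hσ a)) hcon) x₀ h1
    exact (inv_mul_eq_one.1 h2).symm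
  have ha0 : (a : ZMod p) ≠ 0 := by
    intro h
    rw [ZMod.natCast_eq_zero_iff] at h
    have h1 : σ ^ a = 1 := orderOf_dvd_iff_pow_eq_one.1 (by rw [hord]; exact h)
    rw [h1] at hconj
    apply hσ1
    have h2 : (⟨γ, hγ⟩ : G) * σ = (⟨γ, hγ⟩ : G) := mul_inv_eq_one.1 hconj
    exact mul_eq_left.1 h2
  refine ⟨Units.mk0 (a : ZMod p) ha0, Subgroup.mem_top _, (b : ZMod p), ?_⟩
  intro x
  have hx : (a : ZMod p) * x + b = ((a * x.val + b : ℕ) : ZMod p) := by
    push_cast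
    rw [ZMod.natCast_zmod_val]
  have h3 : σ ^ (((a * x.val + b : ℕ) : ZMod p)).val = σ ^ (a * x.val + b) := hval _
  have h4 : (⟨γ, hγ⟩ : G) * σ ^ x.val = σ ^ (a * x.val) * (⟨γ, hγ⟩ : G) := by
    rw [pow_mul, ← hconj, conj_pow]
    group
  rw [Units.val_mk0, hx]
  change γ (((σ ^ x.val : G) : Equiv.Perm (Fin p)) x₀) =
    ((σ ^ (((a * x.val + b : ℕ) : ZMod p)).val : G) : Equiv.Perm (Fin p)) x₀
  rw [h3, pow_add]
  have h5 : γ (((σ ^ x.val : G) : Equiv.Perm (Fin p)) x₀) =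
      (((⟨γ, hγ⟩ : G) * σ ^ x.val : G) : Equiv.Perm (Fin p)) x₀ := rfl
  rw [h5, h4]
  change ((σ ^ (a * x.val) : G) : Equiv.Perm (Fin p)) (γ x₀) =
    ((σ ^ (a * x.val) : G) : Equiv.Perm (Fin p)) (((σ ^ b : G) : Equiv.Perm (Fin p)) x₀)
  rw [hb]

end Pool.Agent.Helper16.FS
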