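import Mathlib

/-!
# Size bias for functions of a uniform family of permutations

`Y = κ → Perm α` (uniform). A token `p : α` uses, in the world `y`, a set `use y p` of entries
`(k, a)` (the value `y k a` is read). `ev y p` is an event which only depends on the entries used by
`p`. `D y` is the number of the tokens `p` with `ev y p`. If each token uses at most `l` entries and
each entry is used by at most `q` tokens, then `D` is self-bounding: conditioning on the certificate
of one token changes `D` by at most `2 * q * l`.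
-/

set_option linter.unusedSectionVars false

namespace Pool.Agent.Helper16.FS

open Finset Equiv

variable {κ α : Type*} [Fintype κ] [DecidableEq κ] [Fintype α] [DecidableEq α]

/-- The worlds which agree with `y0` on the entries `S`. -/
def KS (y0 : κ → Perm α) (S : Finset (κ × α)) : Finset (κ → Perm α) :=
  univ.filter fun y => ∀ t ∈ S, y t.1 t.2 = y0 t.1 t.2

lemma mem_KS (y0 : κ → Perm α) (S : Finset (κ × α)) (y : κ → Perm α) :
    y ∈ KS y0 S ↔ ∀ t ∈ S, y t.1 t.2 = y0 t.1 t.2 := by
  simp [KS]

/-- Force the entry `(k, a)` to be `b` by a swap of values. -/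
def frc (k : κ) (a b : α) (y : κ → Perm α) : κ → Perm α :=
  Function.update y k (swap b (y k a) * y k)

lemma frc_at (k : κ) (a b : α) (y : κ → Perm α) : frc k a b y k a = b := by
  simp [frc]

/-- Only two entries are changed. -/
lemma frc_of_ne (k : κ) (a b : α) (y : κ → Perm α) (k' : κ) (a' : α)
    (h1 : (k', a') ≠ (k, a)) (h2 : (k', a') ≠ (k, (y k)⁻¹ b)) : frc k a b y k' a' = y k' a' := by
  unfold frc
  by_cases hk : k' = k
  · subst hk
    rw [Function.update_self, Perm.mul_apply, swap_apply_of_ne_of_ne]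
    · intro h
      apply h2
      rw [← h]
      simp
    · intro h
      exact h1 (by rw [(y k').injective h])
  · rw [Function.update_of_ne hk]

/-- The values which are still free. -/
def free (y0 : κ → Perm α) (S : Finset (κ × α)) (k : κ) : Finset α :=
  univ.filter fun c => ∀ t ∈ S, t.1 = k → y0 k t.2 ≠ c

/-- Swapping two free values keeps the entries in `S`. -/
lemma swap_mem (y0 : κ → Perm α) (S : Finset (κ × α)) (k : κ) (b c : α)
    (hb : b ∈ free y0 S k) (hc : c ∈ free y0 S k) (y : κ → Perm α) (hy : y ∈ KS y0 S) :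
    Function.update y k (swap b c * y k) ∈ KS y0 S := by
  rw [mem_KS] at hy ⊢
  intro t ht
  obtain ⟨k', a'⟩ := t
  by_cases hk : k' = k
  · subst hk
    have h1 := hy _ ht
    simp only at h1 ⊢
    rw [Function.update_self, Perm.mul_apply, h1]
    unfold free at hb hc
    rw [mem_filter] at hb hc
    exact swap_apply_of_ne_of_ne (hb.2 _ ht rfl) (hc.2 _ ht rfl)
  · simp only
    rw [Function.update_of_ne hk]
    exact hy _ ht

lemma free_self (y0 : κ → Perm α) (S : Finset (κ × α)) (k : κ) (a : α) (hS : (k, a) ∉ S)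
    (y : κ → Perm α) (hy : y ∈ KS y0 S) : y k a ∈ free y0 S k := by
  rw [mem_KS] at hy
  unfold free
  rw [mem_filter]
  refine ⟨mem_univ _, ?_⟩
  intro t ht hk h
  obtain ⟨k', a'⟩ := t
  simp only at hk h
  subst hk
  have h1 := hy _ ht
  simp only at h1
  rw [← h1] at h
  have := (y k').injective h
  subst this
  exact hS ht

lemma y0_mem (y0 : κ → Perm α) (S : Finset (κ × α)) : y0 ∈ KS y0 S := by
  rw [mem_KS]
  intro t _
  rfl

lemma frc_mem (y0 : κ → Perm α) (S : Finset (κ × α)) (k : κ) (a : α) (hS : (k, a) ∉ S)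
    (y : κ → Perm α) (hy : y ∈ KS y0 S) : frc k a (y0 k a) y ∈ KS y0 (insert (k, a) S) := by
  have h0 : frc k a (y0 k a) y ∈ KS y0 S :=
    swap_mem y0 S k _ _ (free_self y0 S k a hS y0 (y0_mem y0 S)) (free_self y0 S k a hS y hy) y hy
  rw [mem_KS] at h0 ⊢
  intro t ht
  rw [mem_insert] at ht
  rcases ht with rfl | ht
  · exact frc_at _ _ _ _
  · exact h0 t ht

/-- The fibres of the forcing map are uniform. -/
lemma sum_frc (y0 : κ → Perm α) (S : Finset (κ × α)) (k : κ) (a : α) (hS : (k, a) ∉ S)
    (F : (κ → Perm α) → ℝ) :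
    ∑ y ∈ KS y0 S, F (frc k a (y0 k a) y) =
      (free y0 S k).card * ∑ z ∈ KS y0 (insert (k, a) S), F z := by
  have hb := free_self y0 S k a hS y0 (y0_mem y0 S)
  have h1 : ((free y0 S k).card : ℝ) * ∑ z ∈ KS y0 (insert (k, a) S), F z =
      ∑ w ∈ free y0 S k ×ˢ KS y0 (insert (k, a) S), F w.2 := by
    rw [sum_product]
    simp only [sum_const, nsmul_eq_mul]
  rw [h1]
  refine sum_nbij' (fun y => (y k a, frc k a (y0 k a) y))
    (fun w => Function.update w.2 k (swap (y0 k a) w.1 * w.2 k)) ?_ ?_ ?_ ?_ ?_
  · intro y hy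
    rw [mem_product]
    exact ⟨free_self y0 S k a hS y hy, frc_mem y0 S k a hS y hy⟩
  · intro w hw
    rw [mem_product] at hw
    refine swap_mem y0 S k _ _ hb hw.1 w.2 ?_
    have := hw.2
    rw [mem_KS] at this ⊢
    exact fun t ht => this t (mem_insert_of_mem ht)
  · intro y hy
    funext k'
    by_cases hk : k' = k
    · subst hk
      rw [Function.update_self]
      unfold frc
      dsimp only
      rw [Function.update_self, ← mul_assoc, swap_mul_self, one_mul]
    · rw [Function.update_of_ne hk]
      unfold frc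
      dsimp only
      rw [Function.update_of_ne hk]
  · intro w hw
    rw [mem_product, mem_KS] at hw
    have h2 : w.2 k a = y0 k a := hw.2 (k, a) (mem_insert_self _ _)
    have h3 : Function.update w.2 k (swap (y0 k a) w.1 * w.2 k) k a = w.1 := by
      rw [Function.update_self, Perm.mul_apply, h2, swap_apply_left]
    refine Prod.ext h3 ?_
    unfold frc
    dsimp only
    rw [h3, Function.update_self, Function.update_idem, ← mul_assoc, swap_mul_self, one_mul,
      Function.update_eq_self]
  · intro y _
    rfl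

/-- The average over the worlds which agree with `y0` on `S`. -/
noncomputable def av (y0 : κ → Perm α) (S : Finset (κ × α)) (F : (κ → Perm α) → ℝ) : ℝ :=
  (∑ y ∈ KS y0 S, F y) / (KS y0 S).card

lemma card_KS_pos (y0 : κ → Perm α) (S : Finset (κ × α)) : (0 : ℝ) < (KS y0 S).card := by
  exact_mod_cast card_pos.2 ⟨y0, y0_mem y0 S⟩

/-- One forced entry. -/
lemma av_insert (y0 : κ → Perm α) (S : Finset (κ × α)) (k : κ) (a : α) (hS : (k, a) ∉ S)
    (F : (κ → Perm α) → ℝ) :
    av y0 (insert (k, a) S) F = av y0 S fun y => F (frc k a (y0 k a) y) := by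
  have h1 := sum_frc y0 S k a hS F
  have h2 := sum_frc y0 S k a hS fun _ => 1
  simp only [sum_const, nsmul_eq_mul, mul_one] at h2
  have hp : (0 : ℝ) < (free y0 S k).card := by
    exact_mod_cast card_pos.2 ⟨_, free_self y0 S k a hS y0 (y0_mem y0 S)⟩
  have hq := card_KS_pos y0 (insert (k, a) S)
  unfold av
  rw [h1, h2]
  field_simp

lemma av_mono (y0 : κ → Perm α) (S : Finset (κ × α)) (F G : (κ → Perm α) → ℝ)
    (h : ∀ y, F y ≤ G y) : av y0 S F ≤ av y0 S G := by
  unfold av
  exact div_le_div_of_nonneg_right (sum_le_sum fun y _ => h y) (card_KS_pos y0 S).le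

/-- `D` changes by at most `c` under a forced entry. -/
lemma av_le (D : (κ → Perm α) → ℕ) (c : ℕ)
    (hD : ∀ k a b y, D (frc k a b y) ≤ D y + c) (y0 : κ → Perm α) (S : Finset (κ × α)) :
    ∀ G : ℕ → ℝ, Antitone G →
      av y0 ∅ (fun y => G (D y + S.card * c)) ≤ av y0 S fun y => G (D y) := by
  induction S using Finset.induction_on with
  | empty => intro G _; simp
  | insert t S ht ih =>
    intro G hG
    obtain ⟨k, a⟩ := t
    rw [av_insert y0 S k a ht, card_insert_of_notMem ht]
    have h1 : av y0 S (fun y => G (D y + c)) ≤ av y0 S fun y => G (D (frc k a (y0 k a) y)) :=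
      av_mono _ _ _ _ fun y => hG (hD _ _ _ _)
    refine le_trans ?_ h1
    have h2 := ih (fun n => G (n + c)) fun m n hmn => hG (by omega)
    refine le_trans (le_of_eq ?_) h2
    congr 1
    funext y
    congr 1
    ring

/-- The average over all worlds. -/
noncomputable def avg (F : (κ → Perm α) → ℝ) : ℝ := (∑ y, F y) / (Fintype.card (κ → Perm α) : ℝ)

lemma av_empty (y0 : κ → Perm α) (F : (κ → Perm α) → ℝ) : av y0 ∅ F = avg F := by
  unfold av avg KS
  simp

/-- Averages over classes. -/
lemma avg_class (U : (κ → Perm α) → Finset (κ × α))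
    (hU : ∀ y z, z ∈ KS y (U y) → U z = U y) (f F : (κ → Perm α) → ℝ)
    (hf : ∀ y z, z ∈ KS y (U y) → f z = f y) :
    ∑ y, f y * F y = ∑ y, f y * av y (U y) F := by
  have hsymm : ∀ y z, z ∈ KS y (U y) → y ∈ KS z (U z) := by
    intro y z hz
    rw [hU y z hz]
    rw [mem_KS] at hz ⊢
    exact fun t ht => (hz t ht).symm
  have heq : ∀ y z, z ∈ KS y (U y) → KS z (U z) = KS y (U y) := by
    intro y z hz
    ext w
    rw [mem_KS, mem_KS, hU y z hz]
    rw [mem_KS] at hz
    constructor
    · intro h t ht
      rw [h t ht, hz t ht]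
    · intro h t ht
      rw [h t ht, hz t ht]
  have h1 : ∀ y, f y * av y (U y) F =
      ∑ z, if z ∈ KS y (U y) then f z * F z / (KS z (U z)).card else 0 := by
    intro y
    rw [← sum_filter]
    unfold av
    rw [filter_mem_eq_inter, univ_inter, mul_div_assoc', mul_sum, sum_div]
    apply sum_congr rfl
    intro z hz
    rw [hf y z hz, heq y z hz]
  rw [sum_congr rfl fun y _ => h1 y, sum_comm]
  apply sum_congr rfl
  intro z _
  have h2 : ∀ y, (if z ∈ KS y (U y) then f z * F z / ((KS z (U z)).card : ℝ) else 0) =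
      if y ∈ KS z (U z) then f z * F z / ((KS z (U z)).card : ℝ) else 0 := by
    intro y
    by_cases h : z ∈ KS y (U y)
    · rw [if_pos h, if_pos (hsymm y z h)]
    · rw [if_neg h, if_neg fun h' => h (hsymm z y h')]
  rw [sum_congr rfl fun y _ => h2 y, ← sum_filter, filter_mem_eq_inter, univ_inter, sum_const,
    nsmul_eq_mul, mul_div_cancel₀]
  exact (card_KS_pos z (U z)).ne'

end Pool.Agent.Helper16.FS
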