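import Pool.Agent.Helper16.FS.SizeBias

/-!
# Size bias: the two moment bounds

`Loc use ev l q`: each token uses at most `l` entries, each entry is used by at most `q` tokens, the
event `ev y p` and the set `use y p` depend only on the entries in `use y p`. `cnt ev y` is the
number of the tokens with `ev y p`. With `n = card α`, `μ = avg (cnt ev)`, `C = 2 * q * l`:

* `lower`: if `m * C ≤ n` then `avg ((1 - cnt / n) ^ m) ≤ exp (- m * μ / (6 n))`;
* `upper`: `avg ((cnt / n) ^ m) ≤ ((μ + m * C) / n) ^ m`.
-/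

set_option linter.unusedSectionVars false

namespace Pool.Agent.Helper16.FS

open Finset Equiv

variable {κ α : Type*} [Fintype κ] [DecidableEq κ] [Fintype α] [DecidableEq α]

/-- Certificates. -/
structure Loc (use : (κ → Perm α) → α → Finset (κ × α)) (ev : (κ → Perm α) → α → Prop)
    (l q : ℕ) : Prop where
  loc : ∀ y z p, (∀ t ∈ use y p, z t.1 t.2 = y t.1 t.2) → use z p = use y p ∧ (ev z p ↔ ev y p)
  len : ∀ y p, (use y p).card ≤ l
  mul : ∀ y t, (univ.filter fun p => t ∈ use y p).card ≤ q

open Classical in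
/-- The number of the tokens with the event. -/
noncomputable def cnt (ev : (κ → Perm α) → α → Prop) (y : κ → Perm α) : ℕ :=
  (univ.filter fun p => ev y p).card

lemma cnt_le (ev : (κ → Perm α) → α → Prop) (y : κ → Perm α) :
    cnt ev y ≤ Fintype.card α := card_le_univ _

/-- A forced entry changes the number by at most `2 q`. -/
lemma cnt_frc {use : (κ → Perm α) → α → Finset (κ × α)} {ev : (κ → Perm α) → α → Prop}
    {l q : ℕ} (h : Loc use ev l q) (k : κ) (a b : α) (y : κ → Perm α) :
    cnt ev (frc k a b y) ≤ cnt ev y + 2 * q := by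
  classical
  set z := frc k a b y with hz
  have h1 : (univ.filter fun p => ev z p) ⊆ (univ.filter fun p => ev y p) ∪
      ((univ.filter fun p => (k, a) ∈ use z p) ∪
        (univ.filter fun p => (k, (y k)⁻¹ b) ∈ use z p)) := by
    intro p hp
    rw [mem_filter] at hp
    rw [mem_union, mem_union, mem_filter, mem_filter, mem_filter]
    by_cases h2 : (k, a) ∈ use z p
    · exact Or.inr (Or.inl ⟨mem_univ _, h2⟩)
    by_cases h3 : (k, (y k)⁻¹ b) ∈ use z p
    · exact Or.inr (Or.inr ⟨mem_univ _, h3⟩)
    refine Or.inl ⟨mem_univ _, ?_⟩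
    refine ((h.loc z y p ?_).2).2 hp.2
    intro t ht
    obtain ⟨k', a'⟩ := t
    refine (frc_of_ne k a b y k' a' ?_ ?_).symm
    · intro he
      exact h2 (he ▸ ht)
    · intro he
      exact h3 (he ▸ ht)
  have h4 := card_le_card h1
  have h5 := card_union_le (univ.filter fun p => ev y p)
    ((univ.filter fun p => (k, a) ∈ use z p) ∪ (univ.filter fun p => (k, (y k)⁻¹ b) ∈ use z p))
  have h6 := card_union_le (univ.filter fun p => (k, a) ∈ use z p)
    (univ.filter fun p => (k, (y k)⁻¹ b) ∈ use z p)
  have h7 := h.mul z (k, a)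
  have h8 := h.mul z (k, (y k)⁻¹ b)
  unfold cnt
  omega

/-- The size bias inequality. -/
lemma size_bias {use : (κ → Perm α) → α → Finset (κ × α)} {ev : (κ → Perm α) → α → Prop}
    {l q : ℕ} (h : Loc use ev l q) (G : ℕ → ℝ) (hG : Antitone G) :
    avg (fun y => (cnt ev y : ℝ)) * avg (fun y => G (cnt ev y + 2 * q * l)) ≤
      avg (fun y => (cnt ev y : ℝ) * G (cnt ev y)) := by
  classical
  have h1 : ∀ y, (cnt ev y : ℝ) = ∑ p, if ev y p then (1 : ℝ) else 0 := by
    intro y
    unfold cnt
    rw [← sum_filter, sum_const, nsmul_eq_mul, mul_one]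
  have h2 : ∀ p, (∑ y, if ev y p then (1 : ℝ) else 0) * avg (fun y => G (cnt ev y + 2 * q * l)) ≤
      ∑ y, (if ev y p then (1 : ℝ) else 0) * G (cnt ev y) := by
    intro p
    rw [avg_class (fun y => use y p) (fun y z hz => (h.loc y z p ((mem_KS _ _ _).1 hz)).1)
      (fun y => if ev y p then (1 : ℝ) else 0) (fun y => G (cnt ev y))
      (fun y z hz => by
        have := (h.loc y z p ((mem_KS _ _ _).1 hz)).2
        simp only [this]), sum_mul]
    apply sum_le_sum
    intro y _
    apply mul_le_mul_of_nonneg_left _ (by split_ifs <;> norm_num)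
    have h3 := av_le (cnt ev) (2 * q) (fun k a b y => cnt_frc h k a b y) y (use y p) G hG
    rw [av_empty] at h3
    refine le_trans ?_ h3
    unfold avg
    apply div_le_div_of_nonneg_right _ (by positivity)
    apply sum_le_sum
    intro z _
    apply hG
    have := h.len y p
    calc cnt ev z + (use y p).card * (2 * q) ≤ cnt ev z + l * (2 * q) := by gcongr
      _ = cnt ev z + 2 * q * l := by ring
  have h4 := sum_le_sum fun p (_ : p ∈ (univ : Finset α)) => h2 p
  rw [← sum_mul, sum_comm, sum_comm (s := (univ : Finset α))] at h4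
  have h5 : ∀ y, ∑ p, (if ev y p then (1 : ℝ) else 0) * G (cnt ev y) =
      (cnt ev y : ℝ) * G (cnt ev y) := by
    intro y
    rw [← sum_mul, ← h1]
  rw [sum_congr rfl fun y _ => (h1 y).symm, sum_congr rfl fun y _ => h5 y] at h4
  have h6 : avg (fun y => (cnt ev y : ℝ)) * avg (fun y => G (cnt ev y + 2 * q * l)) =
      ((∑ y, (cnt ev y : ℝ)) * avg (fun y => G (cnt ev y + 2 * q * l))) /
        (Fintype.card (κ → Perm α) : ℝ) := by
    unfold avg
    ring
  rw [h6]
  exact div_le_div_of_nonneg_right h4 (by positivity)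

lemma card_world_pos : (0 : ℝ) < (Fintype.card (κ → Perm α) : ℝ) := by
  exact_mod_cast Fintype.card_pos

lemma avg_mono (F G : (κ → Perm α) → ℝ) (h : ∀ y, F y ≤ G y) : avg F ≤ avg G := by
  unfold avg
  exact div_le_div_of_nonneg_right (sum_le_sum fun y _ => h y) card_world_pos.le

lemma avg_const (c : ℝ) : avg (fun _ : κ → Perm α => c) = c := by
  unfold avg
  rw [sum_const, nsmul_eq_mul, card_univ, mul_comm, mul_div_assoc, div_self, mul_one]
  exact card_world_pos.ne'

lemma avg_add (F G : (κ → Perm α) → ℝ) : avg (fun y => F y + G y) = avg F + avg G := by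
  unfold avg
  rw [sum_add_distrib, add_div]

lemma avg_mul (c : ℝ) (F : (κ → Perm α) → ℝ) : avg (fun y => c * F y) = c * avg F := by
  unfold avg
  rw [← mul_sum, mul_div_assoc]

lemma exp_half {t : ℝ} (h0 : 0 ≤ t) (h1 : t ≤ 1) : Real.exp (-t) ≤ 1 - t / 2 := by
  have h2 := Real.add_one_le_exp t
  rw [Real.exp_neg, inv_le_comm₀ (Real.exp_pos t) (by linarith)]
  refine le_trans ?_ h2
  rw [inv_le_iff_one_le_mul₀ (by linarith)]
  nlinarith

/-- LOWER TAIL. -/
theorem lower {use : (κ → Perm α) → α → Finset (κ × α)} {ev : (κ → Perm α) → α → Prop}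
    {l q : ℕ} (h : Loc use ev l q) [Nonempty α] (m : ℕ)
    (hm : m * (2 * q * l) ≤ Fintype.card α) :
    avg (fun y => (1 - (cnt ev y : ℝ) / Fintype.card α) ^ m) ≤
      Real.exp (- (m * avg (fun y => (cnt ev y : ℝ)) / (6 * Fintype.card α))) := by
  set n : ℝ := (Fintype.card α : ℝ) with hn
  have hn0 : 0 < n := by
    rw [hn]
    exact_mod_cast Fintype.card_pos
  set μ := avg (fun y => (cnt ev y : ℝ)) with hμ
  have hμ0 : 0 ≤ μ := by
    rw [hμ]
    unfold avg
    positivity
  have hle : ∀ y, (cnt ev y : ℝ) ≤ n := fun y => by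
    rw [hn]
    exact_mod_cast cnt_le ev y
  have key : ∀ j : ℕ, j ≤ m → avg (fun y => Real.exp (- (j * ((cnt ev y : ℝ) / n)))) ≤
      Real.exp (- (j * μ / (6 * n))) := by
    intro j
    induction j with
    | zero =>
      intro _
      simp [avg_const]
    | succ j ih =>
      intro hj
      have ih' := ih (by omega)
      set M := avg (fun y => Real.exp (- (j * ((cnt ev y : ℝ) / n)))) with hM
      have hM0 : 0 ≤ M := by
        rw [hM]
        unfold avg
        apply div_nonneg (sum_nonneg fun y _ => (Real.exp_pos _).le) card_world_pos.le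
      have h1 : avg (fun y => Real.exp (- (((j + 1 : ℕ) : ℝ) * ((cnt ev y : ℝ) / n)))) ≤
          avg (fun y => Real.exp (- (j * ((cnt ev y : ℝ) / n))) +
            (-(1 / (2 * n))) * ((cnt ev y : ℝ) * Real.exp (- (j * ((cnt ev y : ℝ) / n))))) := by
        apply avg_mono
        intro y
        have h2 : Real.exp (- (((j + 1 : ℕ) : ℝ) * ((cnt ev y : ℝ) / n))) =
            Real.exp (- (j * ((cnt ev y : ℝ) / n))) * Real.exp (-((cnt ev y : ℝ) / n)) := by
          rw [← Real.exp_add]
          congr 1
          push_cast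
          ring
        rw [h2]
        have h3 := exp_half (t := (cnt ev y : ℝ) / n) (by positivity)
          ((div_le_one hn0).2 (hle y))
        calc Real.exp (- (j * ((cnt ev y : ℝ) / n))) * Real.exp (-((cnt ev y : ℝ) / n)) ≤
            Real.exp (- (j * ((cnt ev y : ℝ) / n))) * (1 - (cnt ev y : ℝ) / n / 2) :=
              mul_le_mul_of_nonneg_left h3 (Real.exp_pos _).le
          _ = _ := by
              field_simp
              ring
      rw [avg_add, avg_mul, ← hM] at h1
      have h4 := size_bias h (fun c => Real.exp (- (j * ((c : ℝ) / n)))) (by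
        intro c c' hcc
        apply Real.exp_le_exp.2
        have : (c : ℝ) ≤ c' := by exact_mod_cast hcc
        have h5 : (j : ℝ) * (c / n) ≤ j * (c' / n) := by gcongr
        linarith)
      have h6 : Real.exp (-1) * M ≤ avg (fun y =>
          (fun c : ℕ => Real.exp (- (j * ((c : ℝ) / n)))) (cnt ev y + 2 * q * l)) := by
        rw [hM, ← avg_mul]
        apply avg_mono
        intro y
        simp only
        rw [← Real.exp_add]
        apply Real.exp_le_exp.2
        have h7 : (j : ℝ) * ((2 * q * l : ℕ) : ℝ) ≤ n := by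
          rw [hn]
          have : j * (2 * q * l) ≤ Fintype.card α :=
            le_trans (Nat.mul_le_mul_right _ (by omega)) hm
          exact_mod_cast this
        have h8 : (j : ℝ) * (((2 * q * l : ℕ) : ℝ) / n) ≤ 1 := by
          rw [← mul_div_assoc, div_le_one hn0]
          exact h7
        push_cast at h8 ⊢
        rw [add_div, mul_add]
        linarith
      have h9 : 1 / 3 < Real.exp (-1) := by
        have := Real.exp_neg_one_gt_d9
        linarith
      have h10 : μ * (1 / 3 * M) ≤ avg (fun y => (cnt ev y : ℝ) *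
          (fun c : ℕ => Real.exp (- (j * ((c : ℝ) / n)))) (cnt ev y)) := by
        refine le_trans ?_ h4
        apply mul_le_mul_of_nonneg_left _ hμ0
        refine le_trans ?_ h6
        exact mul_le_mul_of_nonneg_right h9.le hM0
      simp only at h10
      have h11 : avg (fun y => Real.exp (- (((j + 1 : ℕ) : ℝ) * ((cnt ev y : ℝ) / n)))) ≤
          M * (1 - μ / (6 * n)) := by
        refine h1.trans ?_
        have h12 : -(1 / (2 * n)) * avg (fun y => (cnt ev y : ℝ) *
            Real.exp (- (j * ((cnt ev y : ℝ) / n)))) ≤ -(1 / (2 * n)) * (μ * (1 / 3 * M)) := by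
          apply mul_le_mul_of_nonpos_left h10
          have : 0 < 1 / (2 * n) := by positivity
          linarith
        refine (add_le_add le_rfl h12).trans (le_of_eq ?_)
        field_simp
        ring
      refine h11.trans ?_
      have h13 : 1 - μ / (6 * n) ≤ Real.exp (-(μ / (6 * n))) := by
        have := Real.add_one_le_exp (-(μ / (6 * n)))
        linarith
      calc M * (1 - μ / (6 * n)) ≤ M * Real.exp (-(μ / (6 * n))) :=
            mul_le_mul_of_nonneg_left h13 hM0
        _ ≤ Real.exp (- (j * μ / (6 * n))) * Real.exp (-(μ / (6 * n))) :=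
            mul_le_mul_of_nonneg_right ih' (Real.exp_pos _).le
        _ = _ := by
            rw [← Real.exp_add]
            congr 1
            push_cast
            ring
  refine le_trans ?_ (key m le_rfl)
  apply avg_mono
  intro y
  have h1 : 1 - (cnt ev y : ℝ) / n ≤ Real.exp (-((cnt ev y : ℝ) / n)) := by
    have := Real.add_one_le_exp (-((cnt ev y : ℝ) / n))
    linarith
  have h2 : 0 ≤ 1 - (cnt ev y : ℝ) / n := by
    rw [sub_nonneg, div_le_one hn0]
    exact hle y
  calc (1 - (cnt ev y : ℝ) / n) ^ m ≤ Real.exp (-((cnt ev y : ℝ) / n)) ^ m :=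
        pow_le_pow_left₀ h2 h1 m
    _ = _ := by
        rw [← Real.exp_nat_mul]
        congr 1
        ring

/-- UPPER TAIL. -/
theorem upper {use : (κ → Perm α) → α → Finset (κ × α)} {ev : (κ → Perm α) → α → Prop}
    {l q : ℕ} (h : Loc use ev l q) (m : ℕ) :
    avg (fun y => ((cnt ev y : ℝ) / Fintype.card α) ^ m) ≤
      ((avg (fun y => (cnt ev y : ℝ)) + m * (2 * q * l)) / Fintype.card α) ^ m := by
  set μ := avg (fun y => (cnt ev y : ℝ)) with hμ
  have hμ0 : 0 ≤ μ := by
    rw [hμ]
    unfold avg
    positivity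
  have key : ∀ k j : ℕ, avg (fun y => ((cnt ev y + j * (2 * q * l) : ℕ) : ℝ) ^ k) ≤
      (μ + ((j + k : ℕ) : ℝ) * (2 * q * l)) ^ k := by
    intro k
    induction k with
    | zero =>
      intro j
      simp [avg_const]
    | succ k ih =>
      intro j
      have h1 := size_bias h (fun c => -(((c + j * (2 * q * l) : ℕ) : ℝ) ^ k)) (by
        intro c c' hcc
        simp only
        apply neg_le_neg
        gcongr)
      have h2 : avg (fun y => (fun c : ℕ => -(((c + j * (2 * q * l) : ℕ) : ℝ) ^ k))
          (cnt ev y + 2 * q * l)) =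
          - avg (fun y => ((cnt ev y + (j + 1) * (2 * q * l) : ℕ) : ℝ) ^ k) := by
        rw [← neg_one_mul, ← avg_mul]
        congr 1
        funext y
        simp only
        rw [neg_one_mul]
        congr 3
        ring
      have h3 : avg (fun y => (cnt ev y : ℝ) * (fun c : ℕ =>
          -(((c + j * (2 * q * l) : ℕ) : ℝ) ^ k)) (cnt ev y)) =
          - avg (fun y => (cnt ev y : ℝ) * ((cnt ev y + j * (2 * q * l) : ℕ) : ℝ) ^ k) := by
        rw [← neg_one_mul, ← avg_mul]
        congr 1
        funext y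
        simp only
        ring
      rw [h2, h3] at h1
      have h4 : avg (fun y => ((cnt ev y + j * (2 * q * l) : ℕ) : ℝ) ^ (k + 1)) =
          avg (fun y => (cnt ev y : ℝ) * ((cnt ev y + j * (2 * q * l) : ℕ) : ℝ) ^ k) +
          (j * (2 * q * l)) * avg (fun y => ((cnt ev y + j * (2 * q * l) : ℕ) : ℝ) ^ k) := by
        rw [← avg_mul, ← avg_add]
        congr 1
        funext y
        push_cast
        ring
      have h5 : avg (fun y => ((cnt ev y + j * (2 * q * l) : ℕ) : ℝ) ^ k) ≤
          avg (fun y => ((cnt ev y + (j + 1) * (2 * q * l) : ℕ) : ℝ) ^ k) := by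
        apply avg_mono
        intro y
        gcongr
        omega
      have h6 := ih (j + 1)
      rw [h4]
      have hj : (0 : ℝ) ≤ j * (2 * q * l) := by positivity
      have h7 : avg (fun y => ((cnt ev y + (j + 1) * (2 * q * l) : ℕ) : ℝ) ^ k) ≤
          (μ + ((j + (k + 1) : ℕ) : ℝ) * (2 * q * l)) ^ k := by
        refine h6.trans (le_of_eq ?_)
        congr 3
        push_cast
        ring
      have h8 : (0 : ℝ) ≤ (μ + ((j + (k + 1) : ℕ) : ℝ) * (2 * q * l)) ^ k := by positivity
      calc avg (fun y => (cnt ev y : ℝ) * ((cnt ev y + j * (2 * q * l) : ℕ) : ℝ) ^ k) +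
          (j * (2 * q * l)) * avg (fun y => ((cnt ev y + j * (2 * q * l) : ℕ) : ℝ) ^ k) ≤
          μ * avg (fun y => ((cnt ev y + (j + 1) * (2 * q * l) : ℕ) : ℝ) ^ k) +
          (j * (2 * q * l)) * avg (fun y => ((cnt ev y + (j + 1) * (2 * q * l) : ℕ) : ℝ) ^ k) := by
            apply add_le_add _ (mul_le_mul_of_nonneg_left h5 hj)
            linarith
        _ = (μ + j * (2 * q * l)) *
            avg (fun y => ((cnt ev y + (j + 1) * (2 * q * l) : ℕ) : ℝ) ^ k) := by ring
        _ ≤ (μ + j * (2 * q * l)) * (μ + ((j + (k + 1) : ℕ) : ℝ) * (2 * q * l)) ^ k :=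
            mul_le_mul_of_nonneg_left h7 (by positivity)
        _ ≤ (μ + ((j + (k + 1) : ℕ) : ℝ) * (2 * q * l)) *
            (μ + ((j + (k + 1) : ℕ) : ℝ) * (2 * q * l)) ^ k := by
            apply mul_le_mul_of_nonneg_right _ h8
            have : (j : ℝ) ≤ ((j + (k + 1) : ℕ) : ℝ) := by push_cast; linarith [(k.cast_nonneg : (0 : ℝ) ≤ k)]
            have h9 : (0 : ℝ) ≤ 2 * q * l := by positivity
            nlinarith
        _ = _ := by ring
  have h1 := key m 0
  have h2 : avg (fun y => ((cnt ev y : ℝ) / Fintype.card α) ^ m) =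
      (1 / (Fintype.card α : ℝ) ^ m) * avg (fun y => ((cnt ev y + 0 * (2 * q * l) : ℕ) : ℝ) ^ m) := by
    rw [← avg_mul]
    congr 1
    funext y
    rw [div_pow, zero_mul, add_zero]
    ring
  have h3 : ((0 + m : ℕ) : ℝ) = m := by simp
  rw [h3] at h1
  rw [h2, div_pow, div_eq_mul_one_div ((μ + m * (2 * q * l)) ^ m), mul_comm _ (1 / _)]
  exact mul_le_mul_of_nonneg_left h1 (by positivity)

end Pool.Agent.Helper16.FS
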