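import Pool.Agent.Helper16.FS.SizeBias2
import Pool.Agent.Helper4.FS.Edge

/-!
# Size bias for two programs

`P`, `P'` programs of `Helper4.FS`, `L` steps, at most `N` of the steps `0, …, L - 1` of each are
letters. `F y` is the number of the `x` whose two paths end at the same position. With
`Fbar = avg F` (uniform world):

* `closed_lower`: if `8 N² m ≤ n` then `avg ((F / n) ^ m) ≤ exp (- m * (1 - Fbar / n) / 6)`;
* `closed_upper`: `avg ((F / n) ^ m) ≤ ((Fbar + 8 N² m) / n) ^ m`.
-/

namespace Pool.Agent.Helper16.FS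

open Finset Equiv Pool.Agent.Helper4.FS

variable {q n : ℕ}

/-- A step which reads an agreed entry. -/
lemma lp_agree {y z : World q n} {m : Lt q} {p : Fin n}
    (h : z (ed y m p).1 (ed y m p).2 = y (ed y m p).1 (ed y m p).2) :
    Helper4.FS.lp z m p = Helper4.FS.lp y m p ∧ ed z m p = ed y m p := by
  obtain ⟨j, σ⟩ := m
  cases σ
  · simp only [ed, Bool.false_eq_true, if_false] at h
    have h2 : (z j)⁻¹ p = (y j)⁻¹ p := by
      rw [Perm.inv_eq_iff_eq, h]
      simp
    simp [Helper4.FS.lp, ed, h2]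
  · simp only [ed, if_true] at h
    simp [Helper4.FS.lp, ed, h]

/-- The path depends only on the used entries. -/
lemma pos_agree {P : ℕ → Stp q n} {y z : World q n} {i : ℕ} {x : Fin n} (t : ℕ)
    (h : ∀ e ∈ usedSet P y i x t, z e.1 e.2 = y e.1 e.2) :
    ∀ s ≤ t, pos P z i x s = pos P y i x s := by
  intro s
  induction s with
  | zero => intro _; rfl
  | succ s ih =>
    intro hs
    have ih' := ih (by omega)
    rw [pos_succ, pos_succ, ih']
    rcases hst : P (i + s) with c | m
    · rfl
    · refine (lp_agree (h _ ?_)).1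
      rw [mem_usedSet]
      exact ⟨s, by omega, m, hst, rfl⟩

/-- The used set depends only on the used entries. -/
lemma usedSet_agree {P : ℕ → Stp q n} {y z : World q n} {i : ℕ} {x : Fin n} (t : ℕ)
    (h : ∀ e ∈ usedSet P y i x t, z e.1 e.2 = y e.1 e.2) :
    usedSet P z i x t = usedSet P y i x t := by
  ext e
  rw [mem_usedSet, mem_usedSet]
  constructor
  · rintro ⟨k, hk, m, hm, he⟩
    refine ⟨k, hk, m, hm, ?_⟩
    rw [pos_agree t h k hk.le] at he
    rw [← he]
    exact ((lp_agree (h _ (mem_usedSet.2 ⟨k, hk, m, hm, rfl⟩))).2).symm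
  · rintro ⟨k, hk, m, hm, he⟩
    refine ⟨k, hk, m, hm, ?_⟩
    rw [pos_agree t h k hk.le, ← he]
    exact (lp_agree (h _ (mem_usedSet.2 ⟨k, hk, m, hm, rfl⟩))).2

open Classical in
/-- The letters among the steps `i, …, i + t - 1`. -/
noncomputable def lets (P : ℕ → Stp q n) (i t : ℕ) : Finset ℕ :=
  (range t).filter fun k => ∃ m, P (i + k) = Sum.inr m

lemma card_usedSet_lets (P : ℕ → Stp q n) (y : World q n) (i : ℕ) (x : Fin n) (t : ℕ) :
    (usedSet P y i x t).card ≤ (lets P i t).card := by
  classical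
  unfold usedSet lets
  refine (card_biUnion_le).trans ?_
  rw [card_filter]
  refine sum_le_sum fun k _ => ?_
  rcases h : P (i + k) with c | m <;> simp

/-- Each entry is used by at most one token at each letter. -/
lemma mult_usedSet (P : ℕ → Stp q n) (y : World q n) (i : ℕ) (t : ℕ) (e : Fin q × Fin n) :
    (univ.filter fun x => e ∈ usedSet P y i x t).card ≤ (lets P i t).card := by
  classical
  have h1 : (univ.filter fun x => e ∈ usedSet P y i x t) ⊆
      (lets P i t).biUnion fun k => univ.filter fun x =>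
        ∃ m, P (i + k) = Sum.inr m ∧ ed y m (pos P y i x k) = e := by
    intro x hx
    rw [mem_filter, mem_usedSet] at hx
    obtain ⟨k, hk, m, hm, he⟩ := hx.2
    rw [mem_biUnion]
    refine ⟨k, ?_, ?_⟩
    · unfold lets
      rw [mem_filter, mem_range]
      exact ⟨hk, m, hm⟩
    · rw [mem_filter]
      exact ⟨mem_univ _, m, hm, he⟩
  refine (card_le_card h1).trans ((card_biUnion_le).trans ?_)
  have h2 : ∀ k ∈ lets P i t, (univ.filter fun x : Fin n =>
      ∃ m, P (i + k) = Sum.inr m ∧ ed y m (pos P y i x k) = e).card ≤ 1 := by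
    intro k _
    rw [card_le_one]
    intro x hx x' hx'
    rw [mem_filter] at hx hx'
    obtain ⟨_, m, hm, he⟩ := hx
    obtain ⟨_, m', hm', he'⟩ := hx'
    rw [hm] at hm'
    obtain rfl := Sum.inr.inj hm'
    apply pos_inj P y i k
    rw [← he'] at he
    unfold ed at he
    rw [Prod.mk.injEq] at he
    have h3 := he.2
    split_ifs at h3
    · exact h3
    · exact (y m.1)⁻¹.injective h3
  calc ∑ k ∈ lets P i t, _ ≤ ∑ _k ∈ lets P i t, 1 := sum_le_sum h2
    _ = (lets P i t).card := by simp

/-- Two paths end at the same position. -/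
def Cl (P P' : ℕ → Stp q n) (L : ℕ) (y : World q n) (x : Fin n) : Prop :=
  pos P y 0 x L = pos P' y 0 x L

/-- Certificates for closing and for its negation. -/
lemma loc_two (P P' : ℕ → Stp q n) (L N : ℕ) (hP : (lets P 0 L).card ≤ N)
    (hP' : (lets P' 0 L).card ≤ N) (ev : World q n → Fin n → Prop)
    (hev : ∀ y z x, pos P z 0 x L = pos P y 0 x L → pos P' z 0 x L = pos P' y 0 x L →
      (ev z x ↔ ev y x)) :
    Loc (fun y x => usedSet P y 0 x L ∪ usedSet P' y 0 x L) ev (2 * N) (2 * N) where
  loc := by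
    intro y z x h
    have h1 : ∀ e ∈ usedSet P y 0 x L, z e.1 e.2 = y e.1 e.2 :=
      fun e he => h e (mem_union_left _ he)
    have h2 : ∀ e ∈ usedSet P' y 0 x L, z e.1 e.2 = y e.1 e.2 :=
      fun e he => h e (mem_union_right _ he)
    refine ⟨?_, ?_⟩
    · rw [usedSet_agree L h1, usedSet_agree L h2]
    · exact hev y z x (pos_agree L h1 L le_rfl) (pos_agree L h2 L le_rfl)
  len := by
    intro y x
    refine (card_union_le _ _).trans ?_
    have h1 := card_usedSet_lets P y 0 x L
    have h2 := card_usedSet_lets P' y 0 x L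
    omega
  mul := by
    intro y t
    have h1 : (univ.filter fun x => t ∈ usedSet P y 0 x L ∪ usedSet P' y 0 x L) =
        (univ.filter fun x => t ∈ usedSet P y 0 x L) ∪
          (univ.filter fun x => t ∈ usedSet P' y 0 x L) := by
      ext x
      simp only [mem_filter, mem_union, mem_univ, true_and]
    rw [h1]
    refine (card_union_le _ _).trans ?_
    have h2 := mult_usedSet P y 0 L t
    have h3 := mult_usedSet P' y 0 L t
    omega

lemma cnt_compl (ev : World q n → Fin n → Prop) (y : World q n) :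
    (cnt (fun y x => ¬ ev y x) y : ℝ) = n - cnt ev y := by
  classical
  have h := card_filter_add_card_filter_not (s := (univ : Finset (Fin n))) (fun x => ev y x)
  rw [card_univ, Fintype.card_fin] at h
  have h2 : cnt (fun y x => ¬ ev y x) y + cnt ev y = n := by
    unfold cnt
    rw [add_comm]
    convert h
  have h3 : ((cnt (fun y x => ¬ ev y x) y + cnt ev y : ℕ) : ℝ) = n := by rw [h2]
  push_cast at h3
  linarith

/-- SIZE BIAS, lower tail of the number of the displaced points. -/
theorem closed_lower (P P' : ℕ → Stp q n) (L N m : ℕ) (hn : 0 < n)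
    (hP : (lets P 0 L).card ≤ N) (hP' : (lets P' 0 L).card ≤ N) (hm : 8 * N ^ 2 * m ≤ n) :
    avg (fun y => ((cnt (Cl P P' L) y : ℝ) / n) ^ m) ≤
      Real.exp (- (m * (1 - avg (fun y => (cnt (Cl P P' L) y : ℝ)) / n) / 6)) := by
  have : Nonempty (Fin n) := ⟨⟨0, hn⟩⟩
  have hn' : (n : ℝ) ≠ 0 := by exact_mod_cast hn.ne'
  have h1 := lower (loc_two P P' L N hP hP' (fun y x => ¬ Cl P P' L y x) (by
    intro y z x h1 h2
    simp only [Cl, h1, h2])) m (by
      rw [Fintype.card_fin]
      calc m * (2 * (2 * N) * (2 * N)) = 8 * N ^ 2 * m := by ring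
        _ ≤ n := hm)
  rw [Fintype.card_fin] at h1
  have h2 : ∀ y : World q n, 1 - (cnt (fun y x => ¬ Cl P P' L y x) y : ℝ) / n =
      (cnt (Cl P P' L) y : ℝ) / n := by
    intro y
    rw [cnt_compl]
    field_simp
    ring
  have h3 : avg (fun y : World q n => (cnt (fun y x => ¬ Cl P P' L y x) y : ℝ)) =
      n - avg (fun y => (cnt (Cl P P' L) y : ℝ)) := by
    have h4 : avg (fun y : World q n => (cnt (fun y x => ¬ Cl P P' L y x) y : ℝ)) =
        avg (fun y : World q n => (n : ℝ) + (-1) * (cnt (Cl P P' L) y : ℝ)) := by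
      congr 1
      funext y
      rw [cnt_compl]
      ring
    rw [h4, avg_add, avg_mul, avg_const]
    ring
  rw [h3] at h1
  have h5 : avg (fun y : World q n =>
      (1 - (cnt (fun y x => ¬ Cl P P' L y x) y : ℝ) / n) ^ m) =
      avg (fun y => ((cnt (Cl P P' L) y : ℝ) / n) ^ m) := by
    congr 1
    funext y
    rw [h2]
  rw [h5] at h1
  refine h1.trans (le_of_eq ?_)
  congr 1
  field_simp

/-- SIZE BIAS, upper tail of the number of the closed points. -/
theorem closed_upper (P P' : ℕ → Stp q n) (L N m : ℕ)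
    (hP : (lets P 0 L).card ≤ N) (hP' : (lets P' 0 L).card ≤ N) :
    avg (fun y => ((cnt (Cl P P' L) y : ℝ) / n) ^ m) ≤
      ((avg (fun y => (cnt (Cl P P' L) y : ℝ)) + 8 * N ^ 2 * m) / n) ^ m := by
  have h1 := upper (loc_two P P' L N hP hP' (Cl P P' L) (by
    intro y z x h1 h2
    simp only [Cl, h1, h2])) m
  rw [Fintype.card_fin] at h1
  refine h1.trans (le_of_eq ?_)
  congr 3
  push_cast
  ring

end Pool.Agent.Helper16.FS
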