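import Pool.Agent.Helper16.FS.SizeBias3
import Pool.Agent.Helper4.FS.Det

/-!
# Size bias for two words with the same slots

`a`, `b : ℕ → Perm (Fin n)` constants, `g : ℕ → Option (Fin q × Bool)` slots, `N` slots:
`Cl (prog a g) (prog b g) (2 * N) y x` says that the two paths of `x` end at the same position.
-/

namespace Pool.Agent.Helper16.FS

open Finset Equiv Pool.Agent.Helper4.FS

variable {q n : ℕ}

lemma card_lets_prog (a : ℕ → Perm (Fin n)) (g : ℕ → Option (Lt q)) (N : ℕ) :
    (lets (prog a g) 0 (2 * N)).card ≤ N := by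
  classical
  have h1 : (lets (prog a g) 0 (2 * N)).card ≤ (range N).card := by
    refine card_le_card_of_injOn (fun k => k / 2) ?_ ?_
    · intro k hk
      rw [mem_coe, lets, mem_filter, mem_range] at hk
      rw [mem_coe, mem_range]
      show k / 2 < N
      omega
    · intro k hk k' hk' h
      rw [mem_coe, lets, mem_filter, mem_range, zero_add] at hk hk'
      have hodd : ∀ k : ℕ, (∃ m, prog a g k = Sum.inr m) → k % 2 = 1 := by
        rintro k ⟨m, hm⟩
        by_contra h0
        have h2 : k % 2 = 0 := by omega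
        simp [prog, h2] at hm
      have h3 := hodd k hk.2
      have h4 := hodd k' hk'.2
      have h5 : k / 2 = k' / 2 := h
      omega
  rwa [card_range] at h1

/-- SIZE BIAS for fixed words and a fixed pattern: if `8 N² m ≤ n` then the mean of `(F / n) ^ m` is
at most `exp (- m (1 - Fbar / n) / 6)`. -/
theorem word_lower (a b : ℕ → Perm (Fin n)) (g : ℕ → Option (Lt q)) (N m : ℕ) (hn : 0 < n)
    (hm : 8 * N ^ 2 * m ≤ n) :
    avg (fun y => ((cnt (Cl (prog a g) (prog b g) (2 * N)) y : ℝ) / n) ^ m) ≤
      Real.exp (- (m * (1 - avg (fun y =>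
        (cnt (Cl (prog a g) (prog b g) (2 * N)) y : ℝ)) / n) / 6)) :=
  closed_lower _ _ _ N m hn (card_lets_prog a g N) (card_lets_prog b g N) hm

/-- The other regime. -/
theorem word_upper (a b : ℕ → Perm (Fin n)) (g : ℕ → Option (Lt q)) (N m : ℕ) :
    avg (fun y => ((cnt (Cl (prog a g) (prog b g) (2 * N)) y : ℝ) / n) ^ m) ≤
      ((avg (fun y => (cnt (Cl (prog a g) (prog b g) (2 * N)) y : ℝ)) + 8 * N ^ 2 * m) / n) ^ m :=
  closed_upper _ _ _ N m (card_lets_prog a g N) (card_lets_prog b g N)

/-- `avg (cnt / n)` as a number of pairs. -/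
theorem avg_cnt (ev : World q n → Fin n → Prop) [DecidablePred fun w : World q n × Fin n =>
    ev w.1 w.2] :
    avg (fun y => (cnt ev y : ℝ)) * (Fintype.card (World q n) : ℝ) =
      ((univ.filter fun w : World q n × Fin n => ev w.1 w.2).card : ℝ) := by
  classical
  unfold avg
  rw [div_mul_cancel₀ _ (card_world_pos).ne']
  rw [← Nat.cast_sum]
  congr 1
  have h1 : (univ.filter fun w : World q n × Fin n => ev w.1 w.2) =
      (univ : Finset (World q n)).biUnion fun y =>
        (univ.filter fun x => ev y x).image fun x => (y, x) := by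
    ext ⟨y, x⟩
    simp
  rw [h1, card_biUnion]
  · apply sum_congr rfl
    intro y _
    rw [card_image_of_injective]
    · rfl
    · intro x x' h
      simpa using h
  · intro y _ y' _ hne
    rw [Function.onFun, disjoint_left]
    intro w hw hw'
    rw [mem_image] at hw hw'
    obtain ⟨x, _, rfl⟩ := hw
    obtain ⟨x', _, h⟩ := hw'
    exact hne (Prod.mk.inj h).1.symm

end Pool.Agent.Helper16.FS
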